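import Pool.Agent.Lib.MP_c7af3c_ag.T2.IfaceB
import Pool.Agent.Lib.MP_c7af3c_ag.T2.H95.Der

/-!
# MP_c7af3c_ag, project T2: rigidity of the configuration (helper44)

Row RIGID of T2/IfaceB.lean (PaperB.md, section 13). If the configuration (plane, conic, sextic
modulo the conic, point) is isomorphic to one with integral coefficients, then every derivation
over `k` moves the plane along an element of `kk`, so it fixes the point, so the point is over `k`.
-/

set_option autoImplicit false

namespace Pool.Agent.T2.H44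

open MvPolynomial Pool.Agent.Gen Pool.Agent.Sharp Pool.Agent.Edge Pool.Agent.T2
open Pool.Agent.Sharp.H75 (dco DG af lf)
open Pool.Agent.Edge.H65 (ssub)

section sub

variable {K : Type} [Field K]

/-- composition of two substitutions -/
theorem ssub_ssub {n : ℕ} (g : Fin 3 → Fin 3 → K) (P : Fin 3 → Fin (n + 1) → K)
    (G : MvPolynomial (Fin (n + 1)) K) :
    ssub g (ssub P G) = ssub (fun i p => ∑ j, g i j * P j p) G := by
  induction G using MvPolynomial.induction_on with
  | C a => rw [H65.ssub_C, H65.ssub_C, H65.ssub_C]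
  | add F G hF hG => rw [map_add, map_add, map_add, hF, hG]
  | mul_X F p hF =>
    rw [map_mul, map_mul, map_mul, hF]
    congr 1
    rw [H65.ssub_X, H65.ssub_X, map_sum]
    have h : ∀ j, ssub g (C (P j p) * X j) = ∑ i, C (g i j * P j p) * X i := by
      intro j
      rw [map_mul, H65.ssub_C, H65.ssub_X, Finset.mul_sum]
      refine Finset.sum_congr rfl fun i _ => ?_
      rw [map_mul]
      ring
    simp only [h]
    rw [Finset.sum_comm]
    refine Finset.sum_congr rfl fun i _ => ?_
    rw [map_sum, Finset.sum_mul]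

/-- the identity substitution -/
theorem ssub_one (g : Fin 3 → Fin 3 → K) (hg : ∀ i j, g i j = if i = j then 1 else 0)
    (G : MvPolynomial (Fin 3) K) : ssub g G = G := by
  induction G using MvPolynomial.induction_on with
  | C a => rw [H65.ssub_C]
  | add F G hF hG => rw [map_add, hF, hG]
  | mul_X F p hF =>
    rw [map_mul, hF]
    congr 1
    rw [H65.ssub_X, Finset.sum_eq_single p]
    · rw [hg, if_pos rfl, C_1, one_mul]
    · intro i _ hi
      rw [hg, if_neg hi, C_0, zero_mul]
    · intro h; exact absurd (Finset.mem_univ _) h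

/-- the inverse matrix -/
theorem exists_inv (g : Fin 3 → Fin 3 → K) (hg : LinearIndependent K g) :
    ∃ h : Fin 3 → Fin 3 → K, (∀ i j, ∑ l, h i l * g l j = if i = j then 1 else 0) ∧
      ∀ i j, ∑ l, g i l * h l j = if i = j then 1 else 0 := by
  have h1 : IsUnit (Matrix.of g : Matrix (Fin 3) (Fin 3) K) := by
    rw [← Matrix.linearIndependent_rows_iff_isUnit]
    exact hg
  have h2 := (Matrix.isUnit_iff_isUnit_det _).1 h1
  refine ⟨fun i j => (Matrix.of g : Matrix (Fin 3) (Fin 3) K)⁻¹ i j, fun i j => ?_, fun i j => ?_⟩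
  · have h3 := congrFun (congrFun (Matrix.nonsing_inv_mul (Matrix.of g) h2) i) j
    rw [Matrix.mul_apply, Matrix.one_apply] at h3
    exact h3
  · have h3 := congrFun (congrFun (Matrix.mul_nonsing_inv (Matrix.of g) h2) i) j
    rw [Matrix.mul_apply, Matrix.one_apply] at h3
    exact h3

/-- a derivation kills the polynomials with integral coefficients -/
theorem dco_int (δ : Derivation ℤ K K) (G : MvPolynomial (Fin 3) ℤ) :
    dco δ (MvPolynomial.map (Int.castRingHom K) G) = 0 := by
  ext I
  rw [H75.coeff_dco, coeff_map, coeff_zero]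
  have h := δ.map_algebraMap (coeff I G)
  rwa [eq_intCast] at h ⊢

/-- the product of a sum with linear forms with a substitution -/
theorem ssub_move (g : Fin 3 → Fin 3 → K) (P : Fin 3 → Fin 5 → K) (e : Fin 3 → Fin 5 → K)
    (F : MvPolynomial (Fin 5) K) :
    ssub g (∑ j, X j * ∑ p, C (e j p) * ssub P (pderiv p F)) =
      ∑ p, ssub (fun i p => ∑ j, g i j * P j p) (pderiv p F) *
        ∑ i, C (∑ j, g i j * e j p) * X i := by
  rw [map_sum]
  have h1 : ∀ j : Fin 3, ssub g (X j * ∑ p, C (e j p) * ssub P (pderiv p F)) =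
      ∑ p, ssub (fun i p => ∑ j, g i j * P j p) (pderiv p F) *
        ∑ i, C (g i j * e j p) * X i := by
    intro j
    rw [map_mul, map_sum, H65.ssub_X, Finset.mul_sum]
    refine Finset.sum_congr rfl fun p _ => ?_
    rw [map_mul, H65.ssub_C, ssub_ssub, Finset.sum_mul, Finset.mul_sum]
    refine Finset.sum_congr rfl fun i _ => ?_
    rw [map_mul]
    ring
  simp only [h1]
  rw [Finset.sum_comm]
  refine Finset.sum_congr rfl fun p _ => ?_
  rw [← Finset.mul_sum, Finset.sum_comm]
  congr 1
  refine Finset.sum_congr rfl fun i _ => ?_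
  rw [map_sum, Finset.sum_mul]

end sub

/-- a derivation over `k` moves the plane along an element of `kk` -/
theorem mem_kk {K : Type} [Field K] (D : D6 K) (P : Fin 3 → Fin 5 → K)
    (q : MvPolynomial (Fin 3) K) (g h : Fin 3 → Fin 3 → K)
    (hg : ∀ i j, ∑ l, g i l * h l j = if i = j then 1 else 0)
    (hh : ∀ i j, ∑ l, h i l * g l j = if i = j then 1 else 0)
    (q0 f0 : MvPolynomial (Fin 3) ℤ) (a : K) (ha : a ≠ 0)
    (hq : ssub g q = C a * MvPolynomial.map (Int.castRingHom K) q0)
    (hf : ssub g (ssub P (D.F 0)) - MvPolynomial.map (Int.castRingHom K) f0 ∈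
      mulS (MvPolynomial.map (Int.castRingHom K) q0) 4)
    (δ : Derivation ℤ K K) (hδ : dco δ (D.F 0) = 0) :
    (fun j p => ∑ i, h j i * δ (∑ l, g i l * P l p)) ∈ kk D P q := by
  obtain ⟨A, hA, hAf⟩ := mem_mulS.1 hf
  have h1 : ssub (fun i p => ∑ j, g i j * P j p) (D.F 0) =
      MvPolynomial.map (Int.castRingHom K) f0 + MvPolynomial.map (Int.castRingHom K) q0 * A := by
    rw [← ssub_ssub, hAf]
    ring
  have h2 := H65.dco_ssub (fun i p => ∑ j, g i j * P j p) δ (D.F 0)
  rw [hδ, map_zero, zero_add, h1, H75.dco_add, dco_int, zero_add, H75.dco_mul, dco_int, zero_mul,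
    zero_add] at h2
  have h3 := ssub_move g P (fun j p => ∑ i, h j i * δ (∑ l, g i l * P l p)) (D.F 0)
  have h4 : ∀ i p, ∑ j, g i j * ∑ i', h j i' * δ (∑ l, g i' l * P l p) =
      δ (∑ l, g i l * P l p) := by
    intro i p
    have h5 : ∀ j, g i j * ∑ i', h j i' * δ (∑ l, g i' l * P l p) =
        ∑ i', g i j * h j i' * δ (∑ l, g i' l * P l p) := by
      intro j
      rw [Finset.mul_sum]
      exact Finset.sum_congr rfl fun i' _ => by ring
    simp only [h5]
    rw [Finset.sum_comm]
    simp only [← Finset.sum_mul, hg]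
    simp
  simp only [h4] at h3
  rw [← h2] at h3
  change _ ∈ mulS q 4
  refine mem_mulS.2 ⟨ssub h (C a⁻¹ * dco δ A), ?_, ?_⟩
  · have h5 : (C a⁻¹ * dco δ A : MvPolynomial (Fin 3) K).IsHomogeneous 4 := by
      have := (isHomogeneous_C (Fin 3) a⁻¹).mul (H75.dco_hom δ hA)
      rwa [zero_add] at this
    exact H65.ssub_hom h h5
  · have h6 : ∀ G : MvPolynomial (Fin 3) K, ssub h (ssub g G) = G := by
      intro G
      rw [ssub_ssub]
      exact ssub_one _ hh G
    have h7 := congrArg (ssub h) h3
    rw [h6] at h7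
    rw [h7]
    have h8 : MvPolynomial.map (Int.castRingHom K) q0 = C a⁻¹ * ssub g q := by
      rw [hq, ← mul_assoc, ← C_mul, inv_mul_cancel₀ ha, C_1, one_mul]
    rw [h8, map_mul, map_mul, map_mul, h6]
    ring

/-- Row RIGID. -/
theorem rigid : RigidStatement := by
  intro K _ _ k D x t P hP q _ _ hkk g q0 f0 y0 a b hC
  obtain ⟨h, hh, hg⟩ := exists_inv g hC.gi
  obtain ⟨i0, hi0⟩ := hP.xk
  refine hi0 (H95.mem_of_der k ?_ (x i0) fun δ hδ => ?_)
  · intro y hy
    obtain ⟨p, hp0, hp⟩ := hy
    refine hP.kalg y (p.map (algebraMap k K)) ?_ ?_ ?_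
    · exact (Polynomial.map_ne_zero_iff (algebraMap k K).injective).2 hp0
    · intro i
      rw [Polynomial.coeff_map]
      exact (p.coeff i).2
    · rwa [Polynomial.eval_map_algebraMap]
  · have hδF : dco δ (D.F 0) = 0 := by
      ext I
      rw [H75.coeff_dco, coeff_zero]
      exact hδ _ (hP.kF I)
    have h1 := mem_kk D P q g h hg hh q0 f0 a hC.a0 hC.hq hC.hf δ hδF
    obtain ⟨c, hc⟩ := hkk _ h1
    -- the vector `s` with `x = b s`
    have hx : ∀ f, x f = b * ∑ i, (y0 i : K) * ∑ l, g i l * P l f := by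
      intro f
      rw [hP.xP f]
      have h2 : ∀ j, P j f * x (t j) = b * ∑ i, (y0 i : K) * (g i j * P j f) := by
        intro j
        rw [hC.hy j, Finset.mul_sum, Finset.mul_sum, Finset.mul_sum]
        exact Finset.sum_congr rfl fun i _ => by ring
      simp only [h2]
      rw [← Finset.mul_sum, Finset.sum_comm]
      simp only [← Finset.mul_sum]
    have he : ∀ f, ∑ i, x (t i) * ∑ i', h i i' * δ (∑ l, g i' l * P l f) =
        b * ∑ i, (y0 i : K) * δ (∑ l, g i l * P l f) := by
      intro f
      have h2 : ∀ j, x (t j) * ∑ i', h j i' * δ (∑ l, g i' l * P l f) =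
          ∑ i', (∑ i, b * (y0 i : K) * (g i j * h j i')) * δ (∑ l, g i' l * P l f) := by
        intro j
        rw [hC.hy j, Finset.mul_sum]
        refine Finset.sum_congr rfl fun i' _ => ?_
        rw [Finset.mul_sum, Finset.sum_mul, Finset.sum_mul]
        exact Finset.sum_congr rfl fun i _ => by ring
      simp only [h2]
      rw [Finset.sum_comm]
      have h3 : ∀ i', ∑ j, (∑ i, b * (y0 i : K) * (g i j * h j i')) *
          δ (∑ l, g i' l * P l f) = b * ((y0 i' : K) * δ (∑ l, g i' l * P l f)) := by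
        intro i'
        rw [← Finset.sum_mul, Finset.sum_comm]
        simp only [← Finset.mul_sum, hg]
        simp only [mul_ite, mul_one, mul_zero, Finset.sum_ite_eq', Finset.mem_univ, if_true]
        ring
      simp only [h3]
      rw [← Finset.mul_sum]
    have hs : ∀ f, δ (∑ i, (y0 i : K) * ∑ l, g i l * P l f) =
        ∑ i, (y0 i : K) * δ (∑ l, g i l * P l f) := by
      intro f
      rw [map_sum]
      refine Finset.sum_congr rfl fun i _ => ?_
      rw [Derivation.leibniz]
      have h2 : δ ((y0 i : ℤ) : K) = 0 := by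
        have h := δ.map_algebraMap (y0 i)
        rwa [eq_intCast] at h
      rw [h2, smul_zero, add_zero, smul_eq_mul]
    have hb : b ≠ 0 := by
      intro hb
      have h2 := hx (t 0)
      rw [hP.x0, hb, zero_mul] at h2
      exact one_ne_zero h2
    have hds : ∀ f, δ (∑ i, (y0 i : K) * ∑ l, g i l * P l f) =
        c * ∑ i, (y0 i : K) * ∑ l, g i l * P l f := by
      intro f
      have h2 := hc f
      rw [he, hx f, ← hs f] at h2
      refine mul_left_cancel₀ hb ?_
      rw [h2]
      ring
    have hdx : ∀ f, δ (x f) = (δ b + b * c) * ∑ i, (y0 i : K) * ∑ l, g i l * P l f := by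
      intro f
      rw [hx f, Derivation.leibniz, hds f]
      simp only [smul_eq_mul]
      ring
    have h2 := hdx (t 0)
    rw [hP.x0, Derivation.map_one_eq_zero] at h2
    have h3 : ∑ i, (y0 i : K) * ∑ l, g i l * P l (t 0) ≠ 0 := by
      intro h4
      have h5 := hx (t 0)
      rw [hP.x0, h4, mul_zero] at h5
      exact one_ne_zero h5
    have h4 : δ b + b * c = 0 := (mul_eq_zero.1 h2.symm).resolve_right h3
    rw [hdx i0, h4, zero_mul]

end Pool.Agent.T2.H44
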