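import Pool.Agent.Lib.MP_c7af3c_ag.T2.IfaceB

/-!
# MP_c7af3c_ag, project T2, row NORM2: two lines, the point on one of them (helper44)
`q = X 0 * X 2`, `y = (1, 0, 0)`. All degrees `d ≥ 2`: `norm2d`.
`r2 f = f(t, 1, 0)` and `r0 f = f(0, 1, t)` are the restrictions to the two lines.
-/

set_option autoImplicit false

namespace Pool.Agent.T2.H44

open MvPolynomial Pool.Agent.Gen Pool.Agent.Sharp Pool.Agent.Edge
open Pool.Agent.Sharp.H75 (dco DG af af_hom)
open Pool.Agent.Edge.H65 (ssub ssub_X ssub_C ssub_hom)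

variable {K : Type} [Field K]

/-! ### multiples of a monomial -/

theorem mem_mulS_monomial {f : MvPolynomial (Fin 3) K} {d e : ℕ} (hf : f.IsHomogeneous d)
    (s : Fin 3 →₀ ℕ) (he : s.degree + e = d)
    (h : ∀ m : Fin 3 →₀ ℕ, m.degree = d → ¬ s ≤ m → coeff m f = 0) :
    f ∈ mulS (monomial s (1 : K)) e := by
  classical
  refine mem_mulS.2 ⟨f.divMonomial s, ?_, ?_⟩
  · intro n hn
    rw [coeff_divMonomial] at hn
    have h1 := hf hn
    rw [Finsupp.weight_apply] at h1
    rw [Finsupp.weight_apply]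
    have h2 : (s + n).degree = d := by
      rw [← h1]
      simp [Finsupp.degree_eq_sum, Finsupp.sum_fintype]
    have h3 : n.sum (fun i c => c • (1 : Fin 3 → ℕ) i) = n.degree := by
      simp [Finsupp.degree_eq_sum, Finsupp.sum_fintype]
    rw [map_add] at h2
    rw [h3]
    omega
  · have h1 : f.modMonomial s = 0 := by
      ext m
      rw [coeff_zero]
      by_cases hm : s ≤ m
      · exact coeff_modMonomial_of_le f hm
      · rw [coeff_modMonomial_of_not_le f hm]
        by_cases hd : m.degree = d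
        · exact h m hd hm
        · exact hf.coeff_eq_zero hd
    have h2 := divMonomial_add_modMonomial f s
    rw [h1, add_zero] at h2
    exact h2

/-! ### the two restrictions -/

variable (K) in
/-- the restriction to the line `X 2 = 0` -/
noncomputable def r2 : MvPolynomial (Fin 3) K →ₐ[K] Polynomial K :=
  aeval ![Polynomial.X, 1, 0]

variable (K) in
/-- the restriction to the line `X 0 = 0` -/
noncomputable def r0 : MvPolynomial (Fin 3) K →ₐ[K] Polynomial K :=
  aeval ![0, 1, Polynomial.X]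

@[simp] theorem r2_X0 : r2 K (X 0) = Polynomial.X := by unfold r2; rw [aeval_X]; rfl
@[simp] theorem r2_X1 : r2 K (X 1) = 1 := by unfold r2; rw [aeval_X]; rfl
@[simp] theorem r2_X2 : r2 K (X 2) = 0 := by unfold r2; rw [aeval_X]; rfl
@[simp] theorem r2_C (a : K) : r2 K (C a) = Polynomial.C a := by unfold r2; rw [aeval_C]; rfl
@[simp] theorem r0_X0 : r0 K (X 0) = 0 := by unfold r0; rw [aeval_X]; rfl
@[simp] theorem r0_X1 : r0 K (X 1) = 1 := by unfold r0; rw [aeval_X]; rfl
@[simp] theorem r0_X2 : r0 K (X 2) = Polynomial.X := by unfold r0; rw [aeval_X]; rfl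
@[simp] theorem r0_C (a : K) : r0 K (C a) = Polynomial.C a := by unfold r0; rw [aeval_C]; rfl

theorem deg3 (m : Fin 3 →₀ ℕ) : m.degree = m 0 + m 1 + m 2 := by
  rw [Finsupp.degree_eq_sum, Fin.sum_univ_three]

theorem ext3 {m n : Fin 3 →₀ ℕ} (h0 : m 0 = n 0) (h1 : m 1 = n 1) (h2 : m 2 = n 2) : m = n := by
  ext i
  fin_cases i
  · exact h0
  · exact h1
  · exact h2

theorem coeff_r2 {f : MvPolynomial (Fin 3) K} {d : ℕ} (hf : f.IsHomogeneous d)
    (m : Fin 3 →₀ ℕ) (hm : m.degree = d) (h2 : m 2 = 0) :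
    (r2 K f).coeff (m 0) = coeff m f := by
  classical
  unfold r2
  rw [aeval_def, eval₂_eq', Polynomial.finsetSum_coeff]
  have h : ∀ n ∈ f.support, n ≠ m → (algebraMap K (Polynomial K) (coeff n f) *
      ∏ i, (![Polynomial.X, 1, 0] : Fin 3 → Polynomial K) i ^ n i).coeff (m 0) = 0 := by
    intro n hn hne
    have hd : n.degree = d := by
      by_contra hc
      exact mem_support_iff.1 hn (hf.coeff_eq_zero hc)
    rw [Fin.prod_univ_three]
    change (Polynomial.C (coeff n f) * (Polynomial.X ^ n 0 * 1 ^ n 1 * 0 ^ n 2)).coeff (m 0) = 0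
    by_cases hz : n 2 = 0
    · rw [hz, pow_zero, one_pow, mul_one, mul_one, Polynomial.coeff_C_mul,
        Polynomial.coeff_X_pow, if_neg, mul_zero]
      intro h0
      apply hne
      rw [deg3] at hd hm
      exact ext3 h0.symm (by omega) (by omega)
    · rw [zero_pow hz, mul_zero, mul_zero, Polynomial.coeff_zero]
  by_cases hs : m ∈ f.support
  · rw [Finset.sum_eq_single_of_mem m hs h, Fin.prod_univ_three]
    change (Polynomial.C (coeff m f) * (Polynomial.X ^ m 0 * 1 ^ m 1 * 0 ^ m 2)).coeff (m 0) = _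
    rw [h2, pow_zero, one_pow, mul_one, mul_one, Polynomial.coeff_C_mul,
        Polynomial.coeff_X_pow, if_pos rfl, mul_one]
  · rw [Finset.sum_eq_zero, notMem_support_iff.1 hs]
    intro n hn
    refine h n hn ?_
    rintro rfl
    exact hs hn

theorem coeff_r0 {f : MvPolynomial (Fin 3) K} {d : ℕ} (hf : f.IsHomogeneous d)
    (m : Fin 3 →₀ ℕ) (hm : m.degree = d) (h2 : m 0 = 0) :
    (r0 K f).coeff (m 2) = coeff m f := by
  classical
  unfold r0
  rw [aeval_def, eval₂_eq', Polynomial.finsetSum_coeff]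
  have h : ∀ n ∈ f.support, n ≠ m → (algebraMap K (Polynomial K) (coeff n f) *
      ∏ i, (![0, 1, Polynomial.X] : Fin 3 → Polynomial K) i ^ n i).coeff (m 2) = 0 := by
    intro n hn hne
    have hd : n.degree = d := by
      by_contra hc
      exact mem_support_iff.1 hn (hf.coeff_eq_zero hc)
    rw [Fin.prod_univ_three]
    change (Polynomial.C (coeff n f) * (0 ^ n 0 * 1 ^ n 1 * Polynomial.X ^ n 2)).coeff (m 2) = 0
    by_cases hz : n 0 = 0
    · rw [hz, pow_zero, one_pow, mul_one, one_mul, Polynomial.coeff_C_mul,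
        Polynomial.coeff_X_pow, if_neg, mul_zero]
      intro h0
      apply hne
      rw [deg3] at hd hm
      exact ext3 (by omega) (by omega) h0.symm
    · rw [zero_pow hz, zero_mul, zero_mul, mul_zero, Polynomial.coeff_zero]
  by_cases hs : m ∈ f.support
  · rw [Finset.sum_eq_single_of_mem m hs h, Fin.prod_univ_three]
    change (Polynomial.C (coeff m f) * (0 ^ m 0 * 1 ^ m 1 * Polynomial.X ^ m 2)).coeff (m 2) = _
    rw [h2, pow_zero, one_pow, mul_one, one_mul, Polynomial.coeff_C_mul,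
        Polynomial.coeff_X_pow, if_pos rfl, mul_one]
  · rw [Finset.sum_eq_zero, notMem_support_iff.1 hs]
    intro n hn
    refine h n hn ?_
    rintro rfl
    exact hs hn

theorem natDegree_r2 {f : MvPolynomial (Fin 3) K} {d : ℕ} (hf : f.IsHomogeneous d) {k : ℕ}
    (hk : d < k) : (r2 K f).coeff k = 0 := by
  classical
  unfold r2
  rw [aeval_def, eval₂_eq', Polynomial.finsetSum_coeff]
  refine Finset.sum_eq_zero fun n hn => ?_
  have hd : n.degree = d := by
    by_contra hc
    exact mem_support_iff.1 hn (hf.coeff_eq_zero hc)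
  rw [Fin.prod_univ_three]
  change (Polynomial.C (coeff n f) * (Polynomial.X ^ n 0 * 1 ^ n 1 * 0 ^ n 2)).coeff k = 0
  rw [one_pow, mul_one, Polynomial.coeff_C_mul]
  by_cases hz : n 2 = 0
  · rw [hz, pow_zero, mul_one, Polynomial.coeff_X_pow, if_neg, mul_zero]
    rw [deg3] at hd
    omega
  · rw [zero_pow hz, mul_zero, Polynomial.coeff_zero, mul_zero]

theorem natDegree_r0 {f : MvPolynomial (Fin 3) K} {d : ℕ} (hf : f.IsHomogeneous d) {k : ℕ}
    (hk : d < k) : (r0 K f).coeff k = 0 := by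
  classical
  unfold r0
  rw [aeval_def, eval₂_eq', Polynomial.finsetSum_coeff]
  refine Finset.sum_eq_zero fun n hn => ?_
  have hd : n.degree = d := by
    by_contra hc
    exact mem_support_iff.1 hn (hf.coeff_eq_zero hc)
  rw [Fin.prod_univ_three]
  change (Polynomial.C (coeff n f) * (0 ^ n 0 * 1 ^ n 1 * Polynomial.X ^ n 2)).coeff k = 0
  rw [one_pow, mul_one, Polynomial.coeff_C_mul]
  by_cases hz : n 0 = 0
  · rw [hz, pow_zero, one_mul, Polynomial.coeff_X_pow, if_neg, mul_zero]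
    rw [deg3] at hd
    omega
  · rw [zero_pow hz, zero_mul, Polynomial.coeff_zero, mul_zero]

theorem XX_eq : (X 0 * X 2 : MvPolynomial (Fin 3) K) =
    monomial (Finsupp.single 0 1 + Finsupp.single 2 1) 1 := by
  rw [X, X, monomial_mul, one_mul]

theorem mem_of_r {f : MvPolynomial (Fin 3) K} {d : ℕ} (hf : f.IsHomogeneous (d + 2))
    (h2 : r2 K f = 0) (h0 : r0 K f = 0) : f ∈ mulS (X 0 * X 2 : MvPolynomial (Fin 3) K) d := by
  rw [XX_eq]
  refine mem_mulS_monomial hf _ ?_ ?_
  · rw [deg3]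
    simp
    omega
  · intro m hm hs
    by_cases hm2 : m 2 = 0
    · rw [← coeff_r2 hf m hm hm2, h2, Polynomial.coeff_zero]
    · by_cases hm0 : m 0 = 0
      · rw [← coeff_r0 hf m hm hm0, h0, Polynomial.coeff_zero]
      · exfalso
        apply hs
        intro i
        fin_cases i
        · simp
          omega
        · simp
        · simp
          omega

theorem mem_of_r2 {f : MvPolynomial (Fin 3) K} {d : ℕ} (hf : f.IsHomogeneous (d + 1))
    (h2 : r2 K f = 0) : f ∈ mulS (X 2 : MvPolynomial (Fin 3) K) d := by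
  refine mem_mulS_monomial hf (Finsupp.single 2 1) ?_ ?_
  · rw [deg3]
    simp
    omega
  · intro m hm hs
    by_cases hm2 : m 2 = 0
    · rw [← coeff_r2 hf m hm hm2, h2, Polynomial.coeff_zero]
    · exfalso
      apply hs
      intro i
      fin_cases i
      · simp
      · simp
      · simp
        omega

theorem mem_of_r0 {f : MvPolynomial (Fin 3) K} {d : ℕ} (hf : f.IsHomogeneous (d + 1))
    (h0 : r0 K f = 0) : f ∈ mulS (X 0 : MvPolynomial (Fin 3) K) d := by
  refine mem_mulS_monomial hf (Finsupp.single 0 1) ?_ ?_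
  · rw [deg3]
    simp
    omega
  · intro m hm hs
    by_cases hm2 : m 0 = 0
    · rw [← coeff_r0 hf m hm hm2, h0, Polynomial.coeff_zero]
    · exfalso
      apply hs
      intro i
      fin_cases i
      · simp
        omega
      · simp
      · simp

theorem r2_mulS {g : MvPolynomial (Fin 3) K} {d : ℕ}
    (h : g ∈ mulS (X 0 * X 2 : MvPolynomial (Fin 3) K) d) : r2 K g = 0 := by
  obtain ⟨b, -, rfl⟩ := mem_mulS.1 h
  simp

theorem r0_mulS {g : MvPolynomial (Fin 3) K} {d : ℕ}
    (h : g ∈ mulS (X 0 * X 2 : MvPolynomial (Fin 3) K) d) : r0 K g = 0 := by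
  obtain ⟨b, -, rfl⟩ := mem_mulS.1 h
  simp

theorem derivative_r2 (f : MvPolynomial (Fin 3) K) :
    Polynomial.derivative (r2 K f) = r2 K (pderiv 0 f) := by
  induction f using MvPolynomial.induction_on with
  | C a => simp
  | add p q hp hq => rw [map_add, map_add, hp, hq, map_add, map_add]
  | mul_X p i hp =>
    rw [map_mul, Polynomial.derivative_mul, hp]
    simp only [pderiv_mul, map_add, map_mul]
    fin_cases i <;> simp

theorem derivative_r0 (f : MvPolynomial (Fin 3) K) :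
    Polynomial.derivative (r0 K f) = r0 K (pderiv 2 f) := by
  induction f using MvPolynomial.induction_on with
  | C a => simp
  | add p q hp hq => rw [map_add, map_add, hp, hq, map_add, map_add]
  | mul_X p i hp =>
    rw [map_mul, Polynomial.derivative_mul, hp]
    simp only [pderiv_mul, map_add, map_mul]
    fin_cases i <;> simp

/-! ### the matrices which fix the point and the conic -/

/-- the entries -/
theorem entries2 {L : Fin 3 → Fin 3 → K} {c c' : K}
    (hy : ∀ j, ∑ i, L j i * (![1, 0, 0] : Fin 3 → K) i = c' * (![1, 0, 0] : Fin 3 → K) j)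
    (hq : af L (X 0 * X 2 : MvPolynomial (Fin 3) K) = C c * (X 0 * X 2)) :
    L 1 0 = 0 ∧ L 2 0 = 0 ∧ L 0 1 = 0 ∧ L 0 2 = 0 ∧ L 2 1 = 0 := by
  have y1 := hy 1
  have y2 := hy 2
  simp [Fin.sum_univ_three] at y1 y2
  have p0 : pderiv 0 (X 0 * X 2 : MvPolynomial (Fin 3) K) = X 2 := by
    simp
  have p1 : pderiv 1 (X 0 * X 2 : MvPolynomial (Fin 3) K) = 0 := by
    simp
  have p2 : pderiv 2 (X 0 * X 2 : MvPolynomial (Fin 3) K) = X 0 := by
    simp
  have key : ∀ z : Fin 3 → K, (∑ q, L 0 q * z q) * z 2 + (∑ q, L 2 q * z q) * z 0 =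
      c * (z 0 * z 2) := by
    intro z
    have h := congrArg (eval z) hq
    unfold af Pool.Agent.Sharp.H75.lf at h
    rw [Fin.sum_univ_three, p0, p1, p2] at h
    simp only [map_add, map_mul, map_sum, eval_C, eval_X, map_zero] at h
    linear_combination h
  have e1 := key ![0, 0, 1]
  have e2 := key ![0, 1, 1]
  have e3 := key ![1, 1, 0]
  simp [Fin.sum_univ_three] at e1 e2 e3
  refine ⟨y1, y2, ?_, e1, ?_⟩
  · linear_combination e2 - e1
  · linear_combination e3 - y2

theorem r2_lf (a : Fin 3 → K) : r2 K (Pool.Agent.Sharp.H75.lf (n := 2) a) =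
    Polynomial.C (a 0) * Polynomial.X + Polynomial.C (a 1) := by
  change r2 K (∑ q : Fin 3, C (a q) * X q) = _
  rw [Fin.sum_univ_three, map_add, map_add, map_mul, map_mul, map_mul, r2_C, r2_C, r2_C,
    r2_X0, r2_X1, r2_X2, mul_one, mul_zero, add_zero]

theorem r0_lf (a : Fin 3 → K) : r0 K (Pool.Agent.Sharp.H75.lf (n := 2) a) =
    Polynomial.C (a 1) + Polynomial.C (a 2) * Polynomial.X := by
  change r0 K (∑ q : Fin 3, C (a q) * X q) = _
  rw [Fin.sum_univ_three, map_add, map_add, map_mul, map_mul, map_mul, r0_C, r0_C, r0_C,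
    r0_X0, r0_X1, r0_X2, mul_one, mul_zero, zero_add]

theorem act2 {L : Fin 3 → Fin 3 → K} {f : MvPolynomial (Fin 3) K} {d : ℕ}
    (hf : f.IsHomogeneous d) (h10 : L 1 0 = 0) (h20 : L 2 0 = 0) (h01 : L 0 1 = 0)
    (h21 : L 2 1 = 0) :
    r2 K (af L f) = Polynomial.C (L 0 0 - L 1 1) * (Polynomial.X *
      Polynomial.derivative (r2 K f)) + Polynomial.C (d * L 1 1) * r2 K f := by
  have he : ∑ i, X i * pderiv i f = d • f := hf.sum_X_mul_pderiv
  have he2 := congrArg (r2 K) he
  rw [Fin.sum_univ_three, map_add, map_add, map_mul, map_mul, map_mul, r2_X0, r2_X1, r2_X2,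
    one_mul, zero_mul, add_zero, map_nsmul, nsmul_eq_mul] at he2
  have h0 : r2 K (af L f) = ∑ p : Fin 3, r2 K (Pool.Agent.Sharp.H75.lf (n := 2) (L p)) * r2 K (pderiv p f) := by
    unfold af
    rw [map_sum]
    exact Finset.sum_congr rfl fun p _ => map_mul _ _ _
  rw [h0, Fin.sum_univ_three, derivative_r2, r2_lf, r2_lf, r2_lf, h10, h20, h01, h21]
  simp only [map_mul, map_zero, map_sub, map_natCast]
  linear_combination (Polynomial.C (L 1 1)) * he2

theorem act0 {L : Fin 3 → Fin 3 → K} {f : MvPolynomial (Fin 3) K} {d : ℕ}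
    (hf : f.IsHomogeneous d) (h01 : L 0 1 = 0) (h02 : L 0 2 = 0) (h21 : L 2 1 = 0) :
    r0 K (af L f) = Polynomial.C (L 2 2 - L 1 1) * (Polynomial.X *
      Polynomial.derivative (r0 K f)) - Polynomial.C (L 1 2) * (Polynomial.X * (Polynomial.X *
      Polynomial.derivative (r0 K f))) + Polynomial.C (d * L 1 1) * r0 K f +
      Polynomial.C (d * L 1 2) * (Polynomial.X * r0 K f) := by
  have he : ∑ i, X i * pderiv i f = d • f := hf.sum_X_mul_pderiv
  have he2 := congrArg (r0 K) he
  rw [Fin.sum_univ_three, map_add, map_add, map_mul, map_mul, map_mul, r0_X0, r0_X1, r0_X2,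
    one_mul, zero_mul, zero_add, map_nsmul, nsmul_eq_mul] at he2
  have h0 : r0 K (af L f) = ∑ p : Fin 3, r0 K (Pool.Agent.Sharp.H75.lf (n := 2) (L p)) * r0 K (pderiv p f) := by
    unfold af
    rw [map_sum]
    exact Finset.sum_congr rfl fun p _ => map_mul _ _ _
  rw [h0, Fin.sum_univ_three, derivative_r0, r0_lf, r0_lf, r0_lf, h01, h02, h21]
  simp only [map_mul, map_zero, map_sub, map_natCast]
  linear_combination (Polynomial.C (L 1 1) + Polynomial.C (L 1 2) * Polynomial.X) * he2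

/-! ### coefficients -/

theorem coeff_Xd (A : Polynomial K) (i : ℕ) :
    (Polynomial.X * Polynomial.derivative A).coeff i = i * A.coeff i := by
  cases i with
  | zero => simp
  | succ i =>
    rw [Polynomial.coeff_X_mul, Polynomial.coeff_derivative]
    push_cast
    ring

theorem coeff_eq2 {L : Fin 3 → Fin 3 → K} {A : Polynomial K} {d : ℕ}
    (h : Polynomial.C (L 0 0 - L 1 1) * (Polynomial.X * Polynomial.derivative A) +
      Polynomial.C (d * L 1 1) * A = 0) (i : ℕ) :
    ((L 0 0 - L 1 1) * i + d * L 1 1) * A.coeff i = 0 := by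
  have h1 := congrArg (fun p => Polynomial.coeff p i) h
  simp only [Polynomial.coeff_add, Polynomial.coeff_C_mul, coeff_Xd, Polynomial.coeff_zero] at h1
  linear_combination h1

theorem coeff_eq0 {L : Fin 3 → Fin 3 → K} {B : Polynomial K} {d : ℕ}
    (h : Polynomial.C (L 2 2 - L 1 1) * (Polynomial.X * Polynomial.derivative B) -
      Polynomial.C (L 1 2) * (Polynomial.X * (Polynomial.X * Polynomial.derivative B)) +
      Polynomial.C (d * L 1 1) * B + Polynomial.C (d * L 1 2) * (Polynomial.X * B) = 0) (i : ℕ) :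
    ((L 2 2 - L 1 1) * (i + 1) + d * L 1 1) * B.coeff (i + 1) +
      L 1 2 * (d - i) * B.coeff i = 0 := by
  have h1 := congrArg (fun p => Polynomial.coeff p (i + 1)) h
  simp only [Polynomial.coeff_add, Polynomial.coeff_sub, Polynomial.coeff_C_mul, coeff_Xd,
    Polynomial.coeff_zero, Polynomial.coeff_X_mul, Polynomial.coeff_derivative] at h1
  linear_combination h1

/-- a nonzero matrix with a zero entry -/
theorem exists_ker {M : Submodule K (Fin 3 → Fin 3 → K)} (hM : 2 ≤ Module.finrank K M)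
    (i j : Fin 3) : ∃ L ∈ M, L ≠ 0 ∧ L i j = 0 := by
  let u : M →ₗ[K] K :=
    { toFun := fun L => L.1 i j
      map_add' := fun a b => rfl
      map_smul' := fun c a => rfl }
  have h2 := LinearMap.finrank_range_add_finrank_ker u
  have h3 := Submodule.finrank_le (LinearMap.range u)
  rw [Module.finrank_self] at h3
  have h5 : 0 < Module.finrank K (LinearMap.ker u) := by omega
  have i5 := Module.nontrivial_of_finrank_pos h5
  obtain ⟨⟨L, hL⟩, hL0⟩ := exists_ne (0 : LinearMap.ker u)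
  refine ⟨L.1, L.2, ?_, LinearMap.mem_ker.1 hL⟩
  intro h
  exact hL0 (Subtype.ext (Subtype.ext h))

/-- the solutions of `(1 - s X) B' + d s B = 0` -/
theorem ode [CharZero K] {B : Polynomial K} {s : K} {d : ℕ} (hd : d ≠ 0)
    (h : ∀ i : ℕ, ((i : K) + 1) * B.coeff (i + 1) + s * (d - i) * B.coeff i = 0) :
    B = Polynomial.C (B.coeff 0) * (1 - Polynomial.C s * Polynomial.X) ^ d := by
  have huniq : ∀ P : Polynomial K, (∀ i : ℕ, ((i : K) + 1) * P.coeff (i + 1) +
      s * (d - i) * P.coeff i = 0) → P.coeff 0 = 0 → P = 0 := by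
    intro P hP h0
    ext i
    rw [Polynomial.coeff_zero]
    induction i with
    | zero => exact h0
    | succ i ih =>
      have h1 := hP i
      rw [ih, mul_zero, add_zero] at h1
      exact (mul_eq_zero.1 h1).resolve_left (Nat.cast_add_one_ne_zero i)
  have hsol : ∀ i : ℕ, ((i : K) + 1) * ((1 - Polynomial.C s * Polynomial.X) ^ d :
      Polynomial K).coeff (i + 1) + s * (d - i) *
      ((1 - Polynomial.C s * Polynomial.X) ^ d : Polynomial K).coeff i = 0 := by
    intro i
    have h1 : (1 - Polynomial.C s * Polynomial.X) *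
        Polynomial.derivative ((1 - Polynomial.C s * Polynomial.X) ^ d : Polynomial K) =
        - Polynomial.C (d * s) * (1 - Polynomial.C s * Polynomial.X) ^ d := by
      obtain ⟨e, rfl⟩ := Nat.exists_eq_succ_of_ne_zero hd
      rw [Polynomial.derivative_pow, Nat.succ_sub_one, pow_succ]
      simp
      ring
    have h2 : Polynomial.derivative ((1 - Polynomial.C s * Polynomial.X) ^ d : Polynomial K) -
        Polynomial.C s * (Polynomial.X *
        Polynomial.derivative ((1 - Polynomial.C s * Polynomial.X) ^ d : Polynomial K)) +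
        Polynomial.C (d * s) * (1 - Polynomial.C s * Polynomial.X) ^ d = 0 := by
      linear_combination h1
    have h3 := congrArg (fun p => Polynomial.coeff p i) h2
    simp only [Polynomial.coeff_add, Polynomial.coeff_sub, Polynomial.coeff_C_mul, coeff_Xd,
      Polynomial.coeff_zero, Polynomial.coeff_derivative] at h3
    linear_combination h3
  have h0 : ((1 - Polynomial.C s * Polynomial.X) ^ d : Polynomial K).coeff 0 = 1 := by
    rw [Polynomial.coeff_zero_eq_eval_zero]
    simp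
  have h4 := huniq (B - Polynomial.C (B.coeff 0) * (1 - Polynomial.C s * Polynomial.X) ^ d)
    (fun i => by
      simp only [Polynomial.coeff_sub, Polynomial.coeff_C_mul]
      linear_combination h i - B.coeff 0 * hsol i) (by
      rw [Polynomial.coeff_sub, Polynomial.coeff_C_mul, h0, mul_one, sub_self])
  exact sub_eq_zero.1 h4

/-- the frame with rows `(λ, 0, 0)`, `(0, ρ, 0)`, `(0, s, μ)` -/
def fr (l r s m : K) : Fin 3 → Fin 3 → K := ![![l, 0, 0], ![0, r, 0], ![0, s, m]]

theorem ssub_fr0 (l r s m : K) : ssub (n := 2) (fr l r s m) (X 0) = C l * X 0 := by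
  rw [ssub_X, Fin.sum_univ_three]
  simp [fr]

theorem ssub_fr1 (l r s m : K) : ssub (n := 2) (fr l r s m) (X 1) = C r * X 1 + C s * X 2 := by
  rw [ssub_X, Fin.sum_univ_three]
  simp [fr]

theorem ssub_fr2 (l r s m : K) : ssub (n := 2) (fr l r s m) (X 2) = C m * X 2 := by
  rw [ssub_X, Fin.sum_univ_three]
  simp [fr]

theorem fr_li {l r s m : K} (hl : l ≠ 0) (hr : r ≠ 0) (hm : m ≠ 0) :
    LinearIndependent K (fr l r s m) := by
  rw [Fintype.linearIndependent_iff]
  intro a ha
  have h0 := congrFun ha 0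
  have h1 := congrFun ha 1
  have h2 := congrFun ha 2
  simp [Fin.sum_univ_three, fr] at h0 h1 h2
  have a0 := h0.resolve_right hl
  have a2 := h2.resolve_right hm
  rw [a2, zero_mul, add_zero] at h1
  have a1 := (mul_eq_zero.1 h1).resolve_right hr
  intro i
  fin_cases i
  · exact a0
  · exact a1
  · exact a2

theorem mulS_fr {g h : MvPolynomial (Fin 3) K} {d : ℕ} {l r s m : K}
    (hg : g ∈ mulS (X 0 * X 2 : MvPolynomial (Fin 3) K) d)
    (hh : ssub (n := 2) (fr l r s m) g = h) :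
    h ∈ mulS (X 0 * X 2 : MvPolynomial (Fin 3) K) d := by
  obtain ⟨u, hu, rfl⟩ := mem_mulS.1 hg
  refine mem_mulS.2 ⟨C (l * m) * ssub (n := 2) (fr l r s m) u, ?_, ?_⟩
  · have := (isHomogeneous_C (Fin 3) (l * m)).mul (ssub_hom (fr l r s m) hu)
    rwa [zero_add] at this
  · rw [← hh, map_mul (ssub (n := 2) (fr l r s m)) (X 0 * X 2) u,
      map_mul (ssub (n := 2) (fr l r s m)) (X 0) (X 2), ssub_fr0, ssub_fr2, C_mul]
    ring

/-- Row NORM2 in all degrees; only the two lines of the conic are excluded. -/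
theorem norm2e [CharZero K] [IsAlgClosed K] {d : ℕ} {f : MvPolynomial (Fin 3) K}
    (hf : f.IsHomogeneous (d + 2)) (hc : coeff (Finsupp.single 0 (d + 2)) f = 0)
    (hz2 : f ∉ mulS (X 2 : MvPolynomial (Fin 3) K) (d + 1))
    (hz0 : f ∉ mulS (X 0 : MvPolynomial (Fin 3) K) (d + 1))
    {M : Submodule K (Fin 3 → Fin 3 → K)} (two : 2 ≤ Module.finrank K M)
    (fy : ∀ L ∈ M, ∃ c, ∀ j, ∑ i, L j i * (![1, 0, 0] : Fin 3 → K) i =
      c * (![1, 0, 0] : Fin 3 → K) j)
    (fq : ∀ L ∈ M, ∃ c, af L (X 0 * X 2 : MvPolynomial (Fin 3) K) = C c * (X 0 * X 2))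
    (ff : ∀ L ∈ M, af L f ∈ mulS (X 0 * X 2 : MvPolynomial (Fin 3) K) d) :
    ∃ (g : Fin 3 → Fin 3 → K) (f0 : MvPolynomial (Fin 3) ℤ) (a b : K),
      LinearIndependent K g ∧ a ≠ 0 ∧ b ≠ 0 ∧
      ssub (n := 2) g (X 0 * X 2) = C a * (X 0 * X 2) ∧
      ssub (n := 2) g f - MvPolynomial.map (Int.castRingHom K) f0 ∈
        mulS (X 0 * X 2 : MvPolynomial (Fin 3) K) d ∧
      (∀ j, (![1, 0, 0] : Fin 3 → K) j = b * g 0 j) ∧
      (f0 = X 1 ^ (d + 2) ∨ ∃ i j, 1 ≤ i ∧ 1 ≤ j ∧ i + j = d + 2 ∧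
        f0 = X 0 ^ i * X 1 ^ j + X 2 ^ (d + 2)) := by
  have hA0 : r2 K f ≠ 0 := fun h => hz2 (mem_of_r2 hf h)
  have hB0 : r0 K f ≠ 0 := fun h => hz0 (mem_of_r0 hf h)
  have hent : ∀ L ∈ M, L 1 0 = 0 ∧ L 2 0 = 0 ∧ L 0 1 = 0 ∧ L 0 2 = 0 ∧ L 2 1 = 0 := by
    intro L hL
    obtain ⟨c', hy⟩ := fy L hL
    obtain ⟨c, hq⟩ := fq L hL
    exact entries2 hy hq
  have hA : ∀ L ∈ M, ∀ i : ℕ,
      ((L 0 0 - L 1 1) * i + (d + 2 : ℕ) * L 1 1) * (r2 K f).coeff i = 0 := by
    intro L hL
    obtain ⟨h10, h20, h01, h02, h21⟩ := hent L hL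
    have h := act2 hf h10 h20 h01 h21
    rw [r2_mulS (ff L hL)] at h
    exact coeff_eq2 h.symm
  have hB : ∀ L ∈ M, ∀ i : ℕ,
      ((L 2 2 - L 1 1) * (i + 1) + (d + 2 : ℕ) * L 1 1) * (r0 K f).coeff (i + 1) +
      L 1 2 * ((d + 2 : ℕ) - i) * (r0 K f).coeff i = 0 := by
    intro L hL
    obtain ⟨h10, h20, h01, h02, h21⟩ := hent L hL
    have h := act0 hf h01 h02 h21
    rw [r0_mulS (ff L hL)] at h
    exact coeff_eq0 h.symm
  set A := r2 K f with hAdef
  set B := r0 K f with hBdef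
  -- the degrees
  have hAd : A.coeff (d + 2) = 0 := by
    have h := coeff_r2 hf (Finsupp.single 0 (d + 2)) (by rw [deg3]; simp) (by simp)
    rw [hc, Finsupp.single_eq_same] at h
    exact h
  have hAk : ∀ k, d + 2 < k → A.coeff k = 0 := fun k hk => natDegree_r2 hf hk
  have hBk : ∀ k, d + 2 < k → B.coeff k = 0 := fun k hk => natDegree_r0 hf hk
  have hAB : A.coeff 0 = B.coeff 0 := by
    have h1 := coeff_r2 hf (Finsupp.single 1 (d + 2)) (by rw [deg3]; simp) (by simp)
    have h2 := coeff_r0 hf (Finsupp.single 1 (d + 2)) (by rw [deg3]; simp) (by simp)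
    have h3 : (Finsupp.single 1 (d + 2) : Fin 3 →₀ ℕ) 0 = 0 := by simp
    have h4 : (Finsupp.single 1 (d + 2) : Fin 3 →₀ ℕ) 2 = 0 := by simp
    rw [h3] at h1
    rw [h4] at h2
    rw [hAdef, hBdef, h1, h2]
  -- a nonzero coefficient of `A`
  obtain ⟨i, hi⟩ : ∃ i, A.coeff i ≠ 0 := by
    by_contra hn
    apply hA0
    ext k
    rw [Polynomial.coeff_zero]
    by_contra hk
    exact hn ⟨k, hk⟩
  have hid : i < d + 2 := by
    rcases lt_trichotomy i (d + 2) with h | h | h
    · exact h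
    · rw [h] at hi
      exact absurd hAd hi
    · exact absurd (hAk i h) hi
  have hidK : ((d + 2 : ℕ) : K) - i ≠ 0 := by
    rw [sub_ne_zero]
    exact fun h => by
      have := Nat.cast_injective h
      omega
  have hα : ∀ L ∈ M, L 0 0 = 0 → L 1 1 = 0 := by
    intro L hL h0
    have h := (mul_eq_zero.1 (hA L hL i)).resolve_right hi
    have h1 : (((d + 2 : ℕ) : K) - i) * L 1 1 = 0 := by
      linear_combination h - i * h0
    exact (mul_eq_zero.1 h1).resolve_left hidK
  have hd2 : ((d + 2 : ℕ) : K) ≠ 0 := by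
    exact_mod_cast (by omega : d + 2 ≠ 0)
  have hzero : ∀ L ∈ M, L 0 0 = 0 → L 1 2 = 0 → L 2 2 = 0 → L = 0 := by
    intro L hL h00 h12 h22
    obtain ⟨h10, h20, h01, h02, h21⟩ := hent L hL
    have h11 := hα L hL h00
    funext a b
    fin_cases a <;> fin_cases b <;> simp [h00, h01, h02, h10, h11, h12, h20, h21, h22]
  -- a matrix with `L 0 0 ≠ 0`
  obtain ⟨L1, hL1, hb1⟩ : ∃ L ∈ M, L 0 0 ≠ 0 := by
    by_contra hn
    have h00 : ∀ L ∈ M, L 0 0 = 0 := by
      intro L hL
      by_contra h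
      exact hn ⟨L, hL, h⟩
    obtain ⟨La, hLa, hLa0, ha⟩ := exists_ker two 1 2
    obtain ⟨Lb, hLb, hLb0, hb⟩ := exists_ker two 2 2
    have ha22 : La 2 2 ≠ 0 := fun h => hLa0 (hzero La hLa (h00 La hLa) ha h)
    have hb12 : Lb 1 2 ≠ 0 := fun h => hLb0 (hzero Lb hLb (h00 Lb hLb) h hb)
    apply hB0
    ext k
    rw [Polynomial.coeff_zero]
    cases k with
    | zero =>
      have h := hB Lb hLb 0
      rw [hα Lb hLb (h00 Lb hLb), hb] at h
      have h1 : Lb 1 2 * (d + 2 : ℕ) * B.coeff 0 = 0 := by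
        rw [← h]
        push_cast
        ring
      exact (mul_eq_zero.1 h1).resolve_left (mul_ne_zero hb12 hd2)
    | succ k =>
      have h := hB La hLa k
      rw [hα La hLa (h00 La hLa), ha] at h
      have h1 : La 2 2 * (k + 1) * B.coeff (k + 1) = 0 := by
        rw [← h]
        ring
      exact (mul_eq_zero.1 h1).resolve_left (mul_ne_zero ha22 (Nat.cast_add_one_ne_zero k))
  have hab : L1 0 0 - L1 1 1 ≠ 0 := by
    intro h
    have h1 := (mul_eq_zero.1 (hA L1 hL1 i)).resolve_right hi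
    rw [h, zero_mul, zero_add] at h1
    have h2 := (mul_eq_zero.1 h1).resolve_left hd2
    rw [h2, sub_zero] at h
    exact hb1 h
  have huni : ∀ k, A.coeff k ≠ 0 → k = i := by
    intro k hk
    have h1 := (mul_eq_zero.1 (hA L1 hL1 i)).resolve_right hi
    have h2 := (mul_eq_zero.1 (hA L1 hL1 k)).resolve_right hk
    have h3 : (L1 0 0 - L1 1 1) * ((k : K) - i) = 0 := by
      linear_combination h2 - h1
    have h4 := (mul_eq_zero.1 h3).resolve_left hab
    exact Nat.cast_injective (sub_eq_zero.1 h4)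
  have hAeq : A = Polynomial.C (A.coeff i) * Polynomial.X ^ i := by
    ext k
    rw [Polynomial.coeff_C_mul, Polynomial.coeff_X_pow]
    split_ifs with h
    · rw [h, mul_one]
    · rw [mul_zero]
      by_contra hk
      exact h (huni k hk)
  -- a matrix with `L 0 0 = 0`
  obtain ⟨L0, hL0, hL00, hb0⟩ := exists_ker two 0 0
  have ha0 := hα L0 hL0 hb0
  have hrec : ∀ k : ℕ, L0 2 2 * (k + 1) * B.coeff (k + 1) +
      L0 1 2 * ((d + 2 : ℕ) - k) * B.coeff k = 0 := by
    intro k
    have h := hB L0 hL0 k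
    rw [ha0] at h
    rw [← h]
    ring
  by_cases hg : L0 2 2 = 0
  · -- Case II
    have he : L0 1 2 ≠ 0 := fun h => hL00 (hzero L0 hL0 hb0 h hg)
    have hBz : ∀ k, k < d + 2 → B.coeff k = 0 := by
      intro k hk
      have h := hrec k
      rw [hg, zero_mul, zero_mul, zero_add] at h
      refine (mul_eq_zero.1 h).resolve_left (mul_ne_zero he ?_)
      rw [sub_ne_zero]
      exact fun h => by
        have := Nat.cast_injective h
        omega
    have hBeq : B = Polynomial.C (B.coeff (d + 2)) * Polynomial.X ^ (d + 2) := by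
      ext k
      rw [Polynomial.coeff_C_mul, Polynomial.coeff_X_pow]
      split_ifs with h
      · rw [h, mul_one]
      · rw [mul_zero]
        rcases lt_trichotomy k (d + 2) with h1 | h1 | h1
        · exact hBz k h1
        · exact absurd h1 h
        · exact hBk k h1
    have hbne : B.coeff (d + 2) ≠ 0 := by
      intro h
      rw [h, Polynomial.C_0, zero_mul] at hBeq
      exact hB0 hBeq
    have hi0 : i ≠ 0 := by
      rintro rfl
      rw [hAB] at hi
      exact hi (hBz 0 (by omega))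
    obtain ⟨l, hl⟩ := IsAlgClosed.exists_pow_nat_eq ((A.coeff i)⁻¹) (n := i) (by omega)
    obtain ⟨m, hm⟩ := IsAlgClosed.exists_pow_nat_eq ((B.coeff (d + 2))⁻¹) (n := d + 2)
      (by omega)
    have hl0 : l ≠ 0 := by
      rintro rfl
      rw [zero_pow hi0] at hl
      exact inv_ne_zero hi hl.symm
    have hm0 : m ≠ 0 := by
      rintro rfl
      rw [zero_pow (by omega)] at hm
      exact inv_ne_zero hbne hm.symm
    have hmem : f - (C (A.coeff i) * (X 0 ^ i * X 1 ^ (d + 2 - i)) +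
        C (B.coeff (d + 2)) * X 2 ^ (d + 2)) ∈ mulS (X 0 * X 2 : MvPolynomial (Fin 3) K) d := by
      apply mem_of_r
      · refine hf.sub (IsHomogeneous.add ?_ ?_)
        · have := (isHomogeneous_C (Fin 3) (A.coeff i)).mul
            (((isHomogeneous_X K (0 : Fin 3)).pow i).mul
            ((isHomogeneous_X K (1 : Fin 3)).pow (d + 2 - i)))
          rwa [show 0 + (1 * i + 1 * (d + 2 - i)) = d + 2 by omega] at this
        · have := (isHomogeneous_C (Fin 3) (B.coeff (d + 2))).mul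
            ((isHomogeneous_X K (2 : Fin 3)).pow (d + 2))
          rwa [show 0 + 1 * (d + 2) = d + 2 by omega] at this
      · simp only [map_sub, map_add, map_mul, map_pow, r2_C, r2_X0, r2_X1, r2_X2, one_pow,
          mul_one]
        rw [zero_pow (by omega), mul_zero, add_zero]
        exact sub_eq_zero.2 hAeq
      · simp only [map_sub, map_add, map_mul, map_pow, r0_C, r0_X0, r0_X1, r0_X2, one_pow,
          mul_one]
        rw [zero_pow hi0, mul_zero, zero_add]
        exact sub_eq_zero.2 hBeq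
    refine ⟨fr l 1 0 m, X 0 ^ i * X 1 ^ (d + 2 - i) + X 2 ^ (d + 2), l * m, l⁻¹,
      fr_li hl0 one_ne_zero hm0, mul_ne_zero hl0 hm0, inv_ne_zero hl0, ?_, ?_, ?_,
      Or.inr ⟨i, d + 2 - i, by omega, by omega, by omega, rfl⟩⟩
    · rw [map_mul, ssub_fr0, ssub_fr2, C_mul]
      ring
    · refine mulS_fr hmem (l := l) (r := 1) (s := 0) (m := m) ?_
      simp only [map_sub, map_add, map_mul, map_pow, ssub_C, ssub_fr0, ssub_fr1, ssub_fr2,
        map_X, C_1, C_0, zero_mul, add_zero, one_mul]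
      rw [mul_pow, mul_pow, ← C_pow, ← C_pow, hl, hm]
      have e1 : (C (A.coeff i) : MvPolynomial (Fin 3) K) * C (A.coeff i)⁻¹ = 1 := by
        rw [← C_mul, mul_inv_cancel₀ hi, C_1]
      have e2 : (C (B.coeff (d + 2)) : MvPolynomial (Fin 3) K) * C (B.coeff (d + 2))⁻¹ = 1 := by
        rw [← C_mul, mul_inv_cancel₀ hbne, C_1]
      linear_combination (- X 0 ^ i * X 1 ^ (d + 2 - i)) * e1 - X 2 ^ (d + 2) * e2
    · intro j
      fin_cases j
      · simp [fr, hl0]
      · simp [fr]
      · simp [fr]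
  · -- Case I
    have hBeq := ode (B := B) (s := L0 1 2 / L0 2 2) (d := d + 2) (by omega) (fun k => by
      have h := hrec k
      have h2 : L0 2 2 * (((k : K) + 1) * B.coeff (k + 1) +
          L0 1 2 / L0 2 2 * ((d + 2 : ℕ) - k) * B.coeff k) = 0 := by
        rw [← h]
        field_simp
      exact (mul_eq_zero.1 h2).resolve_left hg)
    have hbne : B.coeff 0 ≠ 0 := by
      intro h
      rw [h, Polynomial.C_0, zero_mul] at hBeq
      exact hB0 hBeq
    have hi0 : i = 0 := by
      refine (huni 0 ?_).symm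
      rw [hAB]
      exact hbne
    rw [hi0, pow_zero, mul_one, hAB] at hAeq
    set s := L0 1 2 / L0 2 2 with hs
    obtain ⟨r, hr⟩ := IsAlgClosed.exists_pow_nat_eq ((B.coeff 0)⁻¹) (n := d + 2) (by omega)
    have hr0 : r ≠ 0 := by
      rintro rfl
      rw [zero_pow (by omega)] at hr
      exact inv_ne_zero hbne hr.symm
    have hmem : f - C (B.coeff 0) * (X 1 - C s * X 2) ^ (d + 2) ∈
        mulS (X 0 * X 2 : MvPolynomial (Fin 3) K) d := by
      apply mem_of_r
      · refine hf.sub ?_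
        have h1 : (X 1 - C s * X 2 : MvPolynomial (Fin 3) K).IsHomogeneous 1 := by
          refine (isHomogeneous_X K 1).sub ?_
          simpa using (isHomogeneous_C (Fin 3) s).mul (isHomogeneous_X K 2)
        have := (isHomogeneous_C (Fin 3) (B.coeff 0)).mul (h1.pow (d + 2))
        rwa [show 0 + 1 * (d + 2) = d + 2 by omega] at this
      · simp only [map_sub, map_mul, map_pow, r2_C, r2_X1, r2_X2, mul_zero, sub_zero, one_pow,
          mul_one]
        exact sub_eq_zero.2 hAeq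
      · simp only [map_sub, map_mul, map_pow, r0_C, r0_X1, r0_X2]
        exact sub_eq_zero.2 hBeq
    refine ⟨fr 1 r s 1, X 1 ^ (d + 2), 1, 1,
      fr_li one_ne_zero hr0 one_ne_zero, one_ne_zero, one_ne_zero, ?_, ?_, ?_, Or.inl rfl⟩
    · rw [map_mul, ssub_fr0, ssub_fr2, C_1]
      ring
    · refine mulS_fr hmem (l := 1) (r := r) (s := s) (m := 1) ?_
      simp only [map_sub, map_mul, map_pow, ssub_C, ssub_fr1, ssub_fr2,
        map_X, C_1, one_mul, add_sub_cancel_right]
      rw [mul_pow, ← C_pow, hr]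
      have e1 : (C (B.coeff 0) : MvPolynomial (Fin 3) K) * C (B.coeff 0)⁻¹ = 1 := by
        rw [← C_mul, mul_inv_cancel₀ hbne, C_1]
      linear_combination (- X 1 ^ (d + 2)) * e1
    · intro j
      fin_cases j
      · simp [fr]
      · simp [fr]
      · simp [fr]

/-- Row NORM2 in all degrees. -/
theorem norm2d [CharZero K] [IsAlgClosed K] {d : ℕ} {f : MvPolynomial (Fin 3) K}
    (hf : f.IsHomogeneous (d + 2)) (hc : coeff (Finsupp.single 0 (d + 2)) f = 0)
    (hz : ∀ z : MvPolynomial (Fin 3) K, z.IsHomogeneous 1 → z ≠ 0 → f ∉ mulS z (d + 1))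
    {M : Submodule K (Fin 3 → Fin 3 → K)} (two : 2 ≤ Module.finrank K M)
    (fy : ∀ L ∈ M, ∃ c, ∀ j, ∑ i, L j i * (![1, 0, 0] : Fin 3 → K) i =
      c * (![1, 0, 0] : Fin 3 → K) j)
    (fq : ∀ L ∈ M, ∃ c, af L (X 0 * X 2 : MvPolynomial (Fin 3) K) = C c * (X 0 * X 2))
    (ff : ∀ L ∈ M, af L f ∈ mulS (X 0 * X 2 : MvPolynomial (Fin 3) K) d) :
    ∃ (g : Fin 3 → Fin 3 → K) (f0 : MvPolynomial (Fin 3) ℤ) (a b : K),
      LinearIndependent K g ∧ a ≠ 0 ∧ b ≠ 0 ∧
      ssub (n := 2) g (X 0 * X 2) = C a * (X 0 * X 2) ∧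
      ssub (n := 2) g f - MvPolynomial.map (Int.castRingHom K) f0 ∈
        mulS (X 0 * X 2 : MvPolynomial (Fin 3) K) d ∧
      (∀ j, (![1, 0, 0] : Fin 3 → K) j = b * g 0 j) ∧
      (f0 = X 1 ^ (d + 2) ∨ ∃ i j, 1 ≤ i ∧ 1 ≤ j ∧ i + j = d + 2 ∧
        f0 = X 0 ^ i * X 1 ^ j + X 2 ^ (d + 2)) :=
  norm2e hf hc (hz (X 2) (isHomogeneous_X K 2) (X_ne_zero 2))
    (hz (X 0) (isHomogeneous_X K 0) (X_ne_zero 0)) two fy fq ff

/-- Row NORM2: two lines, the point on one of them. -/
theorem norm2 : NormqStatement (X 0 * X 2) := by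
  intro K _ _ _ f hf hc hz M hM
  have hq : MvPolynomial.map (Int.castRingHom K) (X 0 * X 2 : MvPolynomial (Fin 3) ℤ) =
      X 0 * X 2 := by
    rw [map_mul, map_X, map_X]
  rw [hq] at hM ⊢
  obtain ⟨g, f0, a, b, hg, ha, -, h1, h2, h3, -⟩ := norm2d (d := 4) hf hc hz hM.two hM.fy
    hM.fq hM.ff
  refine ⟨g, f0, ![1, 0, 0], a, b, hg, ha, ?_, ?_, ?_⟩
  · rw [hq]
    exact h1
  · rw [hq]
    exact h2
  · intro j
    rw [h3 j, Fin.sum_univ_three]
    simp

end Pool.Agent.T2.H44
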